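import Mathlib

/-!
# Two Grothendieck spaces whose product is not weakly Grothendieck

We construct (in ZFC) Tychonoff spaces `X`, `Y` which are Grothendieck in the sense of
Arhangel'skii and whose product is not even weakly Grothendieck.

Outline.

* (`isGrothendieck_of_dense`) If `X` has a dense subset `S` such that every sequence in `S` has a
  cluster point in `X`, then `C_p(X)` is a hereditarily g-space. (Grothendieck, Pryce,
  Asanov and Velichko; we give the full proof.)
* Let `D` be an uncountable set. For a set `𝒰` of free ultrafilters on `D` containing countable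
  sets, let `pts 𝒰` consist of the points of `D` (isolated), of the elements of `𝒰`, and of a
  point `∞` whose neighbourhoods trace on `D` the co-countable sets; it is realised as a subspace
  of the Cantor cube `{0,1}^{countable subsets of D}`.
* If each injective sequence in `D` clusters at an element of `𝒰`, then `pts 𝒰` is Grothendieck.
* If `𝒰`, `𝒱` are disjoint, the diagonal copy of `D ∪ {∞}` (the one-point Lindeloefication of
  the discrete space `D`) is closed in `pts 𝒰 × pts 𝒱`, the characteristic functions of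
  its countable subsets of isolated points extend by zero, and they form a set
  that is countably compact in `C_p(pts 𝒰 × pts 𝒱)` but has no compact closure.
* For `𝒰` take all images of a fixed free ultrafilter `v` on `ℕ` under injections `ℕ → D`, and
  for `𝒱` all images of the Fubini square `v ⊗ v` under injections `ℕ × ℕ → D`. These are
  disjoint (`map_ne`).
-/

open Topology Filter Set

namespace Pool.H64.PNG

/-- `Cp X` is `C_p(X)`: the continuous functions `X → ℝ` with the topology of pointwise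
convergence, that is, with the subspace topology inherited from the product `ℝ^X`. -/
abbrev Cp (X : Type*) [TopologicalSpace X] : Type _ := {f : X → ℝ // Continuous f}

/-- `A` is countably compact in `Z`: every infinite subset of `A` has an accumulation point
in `Z`. -/
def CountablyCompactIn {Z : Type*} [TopologicalSpace Z] (A : Set Z) : Prop :=
  ∀ S : Set Z, S ⊆ A → S.Infinite → ∃ z : Z, AccPt z (𝓟 S)

/-- `Z` is a g-space: the closure of `A` is compact for every `A ⊆ Z` that is countably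
compact in `Z`. -/
def IsGSpace (Z : Type*) [TopologicalSpace Z] : Prop :=
  ∀ A : Set Z, CountablyCompactIn A → IsCompact (closure A)

/-- `Z` is a hereditarily g-space: every subspace of `Z` is a g-space. -/
def IsHereditarilyGSpace (Z : Type*) [TopologicalSpace Z] : Prop :=
  ∀ B : Set Z, IsGSpace B

/-- `X` is a Grothendieck space: `C_p(X)` is a hereditarily g-space. -/
def IsGrothendieck (X : Type*) [TopologicalSpace X] : Prop := IsHereditarilyGSpace (Cp X)

/-- `X` is a weakly Grothendieck space: `C_p(X)` is a g-space. -/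
def IsWeaklyGrothendieck (X : Type*) [TopologicalSpace X] : Prop := IsGSpace (Cp X)

/-- Every Grothendieck space is weakly Grothendieck (not used below; it shows that the
result also gives a product that is not Grothendieck). -/
theorem IsGrothendieck.isWeaklyGrothendieck {X : Type*} [TopologicalSpace X]
    (h : IsGrothendieck X) : IsWeaklyGrothendieck X := by
  intro A hA
  have hA' : CountablyCompactIn (Subtype.val ⁻¹' A : Set ↥(univ : Set (Cp X))) := by
    intro S hS hSinf
    have hinj : Function.Injective (Subtype.val : ↥(univ : Set (Cp X)) → Cp X) :=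
      Subtype.val_injective
    obtain ⟨z, hz⟩ := hA (Subtype.val '' S) (by rintro _ ⟨s, hs, rfl⟩; exact hS hs)
      (hSinf.image hinj.injOn)
    refine ⟨⟨z, mem_univ z⟩, ?_⟩
    rw [accPt_iff_nhds] at hz ⊢
    intro U hU
    obtain ⟨V, hV, hVU⟩ := mem_nhds_subtype _ _ _ |>.mp hU
    obtain ⟨_, ⟨hy1, s, hs, rfl⟩, hne⟩ := hz V hV
    exact ⟨s, ⟨hVU hy1, hs⟩, fun h => hne (congrArg Subtype.val h)⟩
  have h1 := (h univ _ hA').image (continuous_subtype_val (p := (· ∈ (univ : Set (Cp X)))))
  have h2 : Subtype.val '' closure (Subtype.val ⁻¹' A : Set ↥(univ : Set (Cp X))) = closure A := by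
    have he : IsOpenEmbedding (Subtype.val : ↥(univ : Set (Cp X)) → Cp X) :=
      isOpen_univ.isOpenEmbedding_subtypeVal
    rw [← he.isOpenMap.preimage_closure_eq_closure_preimage he.continuous]
    rw [Subtype.image_preimage_coe, univ_inter]
  rwa [h2] at h1

lemma exists_mapClusterPt {Z : Type*} [TopologicalSpace Z] [T1Space Z] {A : Set Z}
    (hA : CountablyCompactIn A) (f : ℕ → Z) (hf : ∀ n, f n ∈ A) :
    ∃ z, MapClusterPt z atTop f := by
  by_cases hfin : (range f).Finite
  · obtain ⟨z, -, hz⟩ := hfin.isCompact.exists_mapClusterPt (f := atTop) (u := f)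
      (by simp)
    exact ⟨z, hz⟩
  · obtain ⟨z, hz⟩ := hA (range f) (by rintro _ ⟨n, rfl⟩; exact hf n) hfin
    refine ⟨z, ?_⟩
    rw [mapClusterPt_iff_frequently]
    intro s hs
    rw [Filter.frequently_atTop]
    intro N
    have hU : s \ (f '' {n | n ≤ N} \ {z}) ∈ 𝓝 z := by
      apply Filter.inter_mem hs
      have hfin2 : (f '' {n | n ≤ N} \ {z}).Finite := ((Set.finite_le_nat N).image f).sdiff
      exact hfin2.isClosed.isOpen_compl.mem_nhds (by simp)
    obtain ⟨y, ⟨⟨hy1, hy2⟩, ⟨n, rfl⟩⟩, hy4⟩ := (accPt_iff_nhds.mp hz) _ hU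
    refine ⟨n, ?_, hy1⟩
    by_contra hlt
    exact hy2 ⟨⟨n, (not_le.mp hlt).le, rfl⟩, hy4⟩

/-- Continuity can be checked on a dense subset, one extra point at a time. -/
lemma continuous_of_dense {X : Type*} [TopologicalSpace X] {S : Set X} (hS : Dense S) (f : X → ℝ)
    (h : ∀ x : X, ∀ ε > 0, ∃ U ∈ 𝓝 x, ∀ s ∈ U ∩ S, |f s - f x| < ε) : Continuous f := by
  rw [continuous_iff_continuousAt]
  intro x
  rw [Metric.continuousAt_iff']
  intro ε hε
  obtain ⟨U, hU, hUS⟩ := h x (ε / 3) (by positivity)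
  obtain ⟨V, hVU, hVo, hxV⟩ := mem_nhds_iff.mp hU
  filter_upwards [hVo.mem_nhds hxV] with y hy
  obtain ⟨U', hU', hUS'⟩ := h y (ε / 3) (by positivity)
  obtain ⟨V', hVU', hVo', hyV'⟩ := mem_nhds_iff.mp hU'
  obtain ⟨s, ⟨hs1, hs2⟩, hs3⟩ := hS.inter_open_nonempty (V ∩ V') (hVo.inter hVo') ⟨y, hy, hyV'⟩
  have h1 := hUS s ⟨hVU hs1, hs3⟩
  have h2 := hUS' s ⟨hVU' hs2, hs3⟩
  rw [Real.dist_eq]
  have : f y - f x = (f s - f x) - (f s - f y) := by ring
  rw [this]
  calc |(f s - f x) - (f s - f y)| ≤ |f s - f x| + |f s - f y| := abs_sub _ _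
    _ < ε := by linarith

lemma approx_of_mem_closure {X : Type*} {A : Set (X → ℝ)} {f : X → ℝ} (hf : f ∈ closure A)
    (T : Finset X) {ε : ℝ} (hε : 0 < ε) : ∃ g ∈ A, ∀ x ∈ T, |g x - f x| < ε := by
  have hU : {g : X → ℝ | ∀ x ∈ T, |g x - f x| < ε} ∈ 𝓝 f := by
    have : {g : X → ℝ | ∀ x ∈ T, |g x - f x| < ε} = ⋂ x ∈ T, {g : X → ℝ | |g x - f x| < ε} := by
      ext g; simp
    rw [this]
    refine (Filter.biInter_finset_mem T).mpr ?_
    intro x _
    have hc : ContinuousAt (fun g : X → ℝ => |g x - f x|) f :=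
      ((continuous_apply x).continuousAt.sub continuousAt_const).abs
    exact hc.eventually_lt continuousAt_const (by simpa using hε)
  obtain ⟨g, hg1, hg2⟩ := mem_closure_iff_nhds.mp hf _ hU
  exact ⟨g, hg2, hg1⟩

section ThmA

variable {X : Type*} [TopologicalSpace X] {S : Set X}

/-- main continuity step -/
lemma closure_continuous (hS : Dense S)
    (hcc : ∀ x : ℕ → X, (∀ n, x n ∈ S) → ∃ y, MapClusterPt y atTop x)
    {A : Set (X → ℝ)} (hAc : ∀ g ∈ A, Continuous g)
    (hA : ∀ f : ℕ → X → ℝ, (∀ n, f n ∈ A) → ∃ g : X → ℝ, Continuous g ∧ MapClusterPt g atTop f)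
    {f : X → ℝ} (hf : f ∈ closure A) : Continuous f := by
  apply continuous_of_dense hS
  by_contra hcon
  push Not at hcon
  obtain ⟨x₀, ε, hε, hcon⟩ := hcon
  classical
  -- build the sequences
  obtain ⟨F, hF1, hF2⟩ := exists_seq_of_forall_finset_exists
    (α := ℕ × (X → ℝ) × X)
    (fun a => a.2.1 ∈ A ∧ a.2.2 ∈ S ∧ ε ≤ |f a.2.2 - f x₀| ∧
      |a.2.1 x₀ - f x₀| < 1 / ((a.1 : ℝ) + 1) ∧ |a.2.1 a.2.2 - a.2.1 x₀| < 1 / ((a.1 : ℝ) + 1))
    (fun a b => a.1 < b.1 ∧ |b.2.1 a.2.2 - f a.2.2| < 1 / ((b.1 : ℝ) + 1) ∧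
      |a.2.1 b.2.2 - a.2.1 x₀| < 1 / ((b.1 : ℝ) + 1))
    (by
      intro T hT
      set k : ℕ := T.sup (fun a => a.1) + 1 with hk
      have hkpos : (0 : ℝ) < 1 / ((k : ℝ) + 1) := by positivity
      obtain ⟨g, hgA, hg⟩ := approx_of_mem_closure hf (insert x₀ (T.image (fun a => a.2.2))) hkpos
      have hU : {x | |g x - g x₀| < 1 / ((k : ℝ) + 1)} ∩
          ⋂ a ∈ T, {x | |a.2.1 x - a.2.1 x₀| < 1 / ((k : ℝ) + 1)} ∈ 𝓝 x₀ := by
        apply Filter.inter_mem
        · have hc : ContinuousAt (fun x => |g x - g x₀|) x₀ :=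
            ((hAc g hgA).continuousAt.sub continuousAt_const).abs
          exact hc.eventually_lt continuousAt_const (by rw [sub_self, abs_zero]; exact hkpos)
        · refine (Filter.biInter_finset_mem T).mpr ?_
          intro a ha
          have hc : ContinuousAt (fun x => |a.2.1 x - a.2.1 x₀|) x₀ :=
            ((hAc _ (hT a ha).1).continuousAt.sub continuousAt_const).abs
          exact hc.eventually_lt continuousAt_const (by rw [sub_self, abs_zero]; exact hkpos)
      obtain ⟨s, ⟨⟨hs1, hs2⟩, hsS⟩, hs3⟩ := hcon _ hU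
      refine ⟨(k, g, s), ⟨hgA, hsS, hs3, ?_, ?_⟩, ?_⟩
      · exact hg x₀ (by simp)
      · exact hs1
      · intro a ha
        refine ⟨?_, ?_, ?_⟩
        · have : a.1 ≤ T.sup (fun a => a.1) := Finset.le_sup (f := fun a => a.1) ha
          show a.1 < k
          omega
        · exact hg a.2.2 (by
            rw [Finset.mem_insert]; right; exact Finset.mem_image_of_mem _ ha)
        · have := Set.mem_iInter₂.mp hs2 a ha
          exact this)
  set κ : ℕ → ℕ := fun n => (F n).1 with hκ
  set g : ℕ → X → ℝ := fun n => (F n).2.1 with hg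
  set s : ℕ → X := fun n => (F n).2.2 with hs
  have hκmono : StrictMono κ := fun m n hmn => (hF2 m n hmn).1
  have hκlim : Tendsto (fun n => 1 / ((κ n : ℝ) + 1)) atTop (𝓝 0) :=
    (tendsto_one_div_add_atTop_nhds_zero_nat (𝕜 := ℝ)).comp hκmono.tendsto_atTop
  obtain ⟨G, hGc, hG⟩ := hA g (fun n => (hF1 n).1)
  obtain ⟨y, hy⟩ := hcc s (fun n => (hF1 n).2.1)
  -- limits
  have lim1 : ∀ k, Tendsto (fun n => g n (s k)) atTop (𝓝 (f (s k))) := by
    intro k
    rw [tendsto_iff_dist_tendsto_zero]
    refine squeeze_zero' (Eventually.of_forall fun _ => dist_nonneg) ?_ hκlim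
    filter_upwards [eventually_gt_atTop k] with n hn
    rw [Real.dist_eq]
    exact (hF2 k n hn).2.1.le
  have lim0 : Tendsto (fun n => g n x₀) atTop (𝓝 (f x₀)) := by
    rw [tendsto_iff_dist_tendsto_zero]
    refine squeeze_zero' (Eventually.of_forall fun _ => dist_nonneg) ?_ hκlim
    filter_upwards with n
    rw [Real.dist_eq]
    exact (hF1 n).2.2.2.1.le
  have lim2 : ∀ i, Tendsto (fun n => g i (s n)) atTop (𝓝 (g i x₀)) := by
    intro i
    rw [tendsto_iff_dist_tendsto_zero]
    refine squeeze_zero' (Eventually.of_forall fun _ => dist_nonneg) ?_ hκlim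
    filter_upwards [eventually_gt_atTop i] with n hn
    rw [Real.dist_eq]
    exact (hF2 i n hn).2.2.le
  have evalcl : ∀ x : X, MapClusterPt (G x) atTop (fun n => g n x) := by
    intro x
    exact hG.continuousAt_comp (f := fun h : X → ℝ => h x) (continuous_apply x).continuousAt
  have hGs : ∀ k, G (s k) = f (s k) := by
    intro k
    have h1 : MapClusterPt (G (s k)) atTop (fun n => g n (s k)) := evalcl (s k)
    exact eq_of_nhds_neBot (h1.clusterPt.mono (lim1 k))
  have hG0 : G x₀ = f x₀ :=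
    eq_of_nhds_neBot ((evalcl x₀).clusterPt.mono lim0)
  have hgy : ∀ i, g i y = g i x₀ := by
    intro i
    have h1 : MapClusterPt (g i y) atTop (fun n => g i (s n)) :=
      hy.continuousAt_comp (hAc _ (hF1 i).1).continuousAt
    exact eq_of_nhds_neBot (h1.clusterPt.mono (lim2 i))
  have hGy : G y = G x₀ := by
    have h1 : MapClusterPt (G y - G x₀) atTop (fun n => g n y - g n x₀) := by
      have hc : Continuous (fun h : X → ℝ => h y - h x₀) := by fun_prop
      exact hG.continuousAt_comp (f := fun h : X → ℝ => h y - h x₀) hc.continuousAt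
    have h2 : (fun n => g n y - g n x₀) = fun _ => (0 : ℝ) := by
      funext n; rw [hgy n]; ring
    rw [h2] at h1
    have h3 : G y - G x₀ = 0 :=
      eq_of_nhds_neBot (h1.clusterPt.mono (tendsto_const_nhds (x := (0 : ℝ)) (f := atTop (α := ℕ))))
    linarith
  have hfar : ε ≤ |G y - G x₀| := by
    have h1 : MapClusterPt (|G y - G x₀|) atTop (fun n => |G (s n) - G x₀|) := by
      have hc : Continuous (fun x => |G x - G x₀|) := by fun_prop
      exact hy.continuousAt_comp (f := fun x => |G x - G x₀|) hc.continuousAt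
    apply (isClosed_Ici (a := ε)).mem_of_mapClusterPt h1
    filter_upwards with n
    show ε ≤ |G (s n) - G x₀|
    rw [hGs n, hG0]
    exact (hF1 n).2.2.1
  rw [hGy] at hfar
  simp at hfar
  linarith

lemma finite_net
    (hcc : ∀ x : ℕ → X, (∀ n, x n ∈ S) → ∃ y, MapClusterPt y atTop x)
    (H : Finset (X → ℝ)) (hH : ∀ h ∈ H, Continuous h) {δ : ℝ} (hδ : 0 < δ) :
    ∃ T : Finset X, (∀ s ∈ T, s ∈ S) ∧ ∀ x ∈ S, ∃ s ∈ T, ∀ h ∈ H, |h x - h s| < δ := by
  by_contra hcon
  push Not at hcon
  obtain ⟨x, hx1, hx2⟩ := exists_seq_of_forall_finset_exists (α := X) (fun x => x ∈ S)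
    (fun s x => ∃ h ∈ H, δ ≤ |h x - h s|) (by
      intro T hT
      obtain ⟨x, hxS, hx⟩ := hcon T hT
      exact ⟨x, hxS, hx⟩)
  obtain ⟨y, hy⟩ := hcc x hx1
  have hU : ∀ᶠ z in 𝓝 y, ∀ h ∈ H, |h z - h y| < δ / 2 := by
    rw [Filter.eventually_all_finset]
    intro h hh
    have hc : ContinuousAt (fun z => |h z - h y|) y :=
      ((hH h hh).continuousAt.sub continuousAt_const).abs
    exact hc.eventually_lt continuousAt_const (by rw [sub_self, abs_zero]; positivity)
  have hfr := hy.frequently hU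
  obtain ⟨m, hm⟩ := hfr.exists
  obtain ⟨n, hn, hn'⟩ := (Filter.frequently_atTop.mp hfr) (m + 1)
  obtain ⟨h, hh, hle⟩ := hx2 m n (by omega)
  have h1 := hm h hh
  have h2 := hn' h hh
  have : h (x n) - h (x m) = (h (x n) - h y) - (h (x m) - h y) := by ring
  rw [this] at hle
  have := abs_sub (h (x n) - h y) (h (x m) - h y)
  linarith

/-- a sequence all of whose cluster points equal `f` -/
lemma exists_seq_unique (hS : Dense S)
    (hcc : ∀ x : ℕ → X, (∀ n, x n ∈ S) → ∃ y, MapClusterPt y atTop x)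
    {A : Set (X → ℝ)} (hAc : ∀ g ∈ A, Continuous g)
    {f : X → ℝ} (hf : f ∈ closure A) (hfc : Continuous f) :
    ∃ g : ℕ → X → ℝ, (∀ n, g n ∈ A) ∧ ∀ G : X → ℝ, Continuous G → MapClusterPt G atTop g →
      G = f := by
  classical
  obtain ⟨F, hF1, hF2⟩ := exists_seq_of_forall_finset_exists
    (α := ℕ × (X → ℝ) × Finset (X → ℝ) × Finset X)
    (fun a => a.2.1 ∈ A ∧ a.2.1 ∈ a.2.2.1 ∧ (∀ h ∈ a.2.2.1, Continuous h) ∧ f ∈ a.2.2.1 ∧
      (∀ s ∈ a.2.2.2, s ∈ S) ∧
      ∀ x ∈ S, ∃ s ∈ a.2.2.2, ∀ h ∈ a.2.2.1, |h x - h s| < 1 / ((a.1 : ℝ) + 1))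
    (fun a b => a.1 < b.1 ∧ a.2.2.1 ⊆ b.2.2.1 ∧
      ∀ s ∈ a.2.2.2, |b.2.1 s - f s| < 1 / ((b.1 : ℝ) + 1))
    (by
      intro T hT
      set k : ℕ := T.sup (fun a => a.1) + 1 with hk
      have hkpos : (0 : ℝ) < 1 / ((k : ℝ) + 1) := by positivity
      obtain ⟨g, hgA, hg⟩ := approx_of_mem_closure hf (T.biUnion (fun a => a.2.2.2)) hkpos
      set H : Finset (X → ℝ) := insert g (insert f (T.biUnion (fun a => a.2.2.1))) with hH
      have hHc : ∀ h ∈ H, Continuous h := by
        intro h hh
        rw [hH, Finset.mem_insert, Finset.mem_insert, Finset.mem_biUnion] at hh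
        rcases hh with rfl | rfl | ⟨a, ha, hha⟩
        · exact hAc _ hgA
        · exact hfc
        · exact (hT a ha).2.2.1 h hha
      obtain ⟨N, hN1, hN2⟩ := finite_net hcc H hHc hkpos
      refine ⟨(k, g, H, N), ⟨hgA, by simp [hH], hHc, by simp [hH], hN1, hN2⟩, ?_⟩
      intro a ha
      refine ⟨?_, ?_, ?_⟩
      · have : a.1 ≤ T.sup (fun a => a.1) := Finset.le_sup (f := fun a => a.1) ha
        show a.1 < k
        omega
      · intro h hh
        show h ∈ H
        rw [hH, Finset.mem_insert, Finset.mem_insert, Finset.mem_biUnion]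
        exact Or.inr (Or.inr ⟨a, ha, hh⟩)
      · intro s hs
        exact hg s (Finset.mem_biUnion.mpr ⟨a, ha, hs⟩))
  set κ : ℕ → ℕ := fun n => (F n).1 with hκ
  set g : ℕ → X → ℝ := fun n => (F n).2.1 with hg
  have hκmono : StrictMono κ := fun m n hmn => (hF2 m n hmn).1
  have hκlim : Tendsto (fun n => 1 / ((κ n : ℝ) + 1)) atTop (𝓝 0) :=
    (tendsto_one_div_add_atTop_nhds_zero_nat (𝕜 := ℝ)).comp hκmono.tendsto_atTop
  refine ⟨g, fun n => (hF1 n).1, ?_⟩
  intro G hGc hG
  have evalcl : ∀ x : X, MapClusterPt (G x) atTop (fun n => g n x) := by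
    intro x
    exact hG.continuousAt_comp (f := fun h : X → ℝ => h x) (continuous_apply x).continuousAt
  have hGs : ∀ k, ∀ s ∈ (F k).2.2.2, G s = f s := by
    intro k s hs
    have lim : Tendsto (fun n => g n s) atTop (𝓝 (f s)) := by
      rw [tendsto_iff_dist_tendsto_zero]
      refine squeeze_zero' (Eventually.of_forall fun _ => dist_nonneg) ?_ hκlim
      filter_upwards [eventually_gt_atTop k] with n hn
      rw [Real.dist_eq]
      exact ((hF2 k n hn).2.2 s hs).le
    exact eq_of_nhds_neBot ((evalcl s).clusterPt.mono lim)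
  have key : ∀ x ∈ S, G x = f x := by
    intro x hx
    choose s hs1 hs2 using fun n => (hF1 n).2.2.2.2.2 x hx
    obtain ⟨y, hy⟩ := hcc s (fun n => (hF1 n).2.2.2.2.1 _ (hs1 n))
    have lim : ∀ h : X → ℝ, Continuous h → (∃ i, ∀ n, i ≤ n → h ∈ (F n).2.2.1) → h y = h x := by
      rintro h hc ⟨i, hi⟩
      have h0 : Tendsto (fun n => h (s n)) atTop (𝓝 (h x)) := by
        rw [tendsto_iff_dist_tendsto_zero]
        refine squeeze_zero' (Eventually.of_forall fun _ => dist_nonneg) ?_ hκlim
        filter_upwards [eventually_ge_atTop i] with n hn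
        rw [Real.dist_eq, abs_sub_comm]
        exact (hs2 n h (hi n hn)).le
      have h1 : MapClusterPt (h y) atTop (fun n => h (s n)) := hy.continuousAt_comp hc.continuousAt
      exact eq_of_nhds_neBot (h1.clusterPt.mono h0)
    have hgi : ∀ i, g i y = g i x := by
      intro i
      apply lim _ (hAc _ (hF1 i).1)
      refine ⟨i, fun n hn => ?_⟩
      rcases hn.eq_or_lt with rfl | hlt
      · exact (hF1 i).2.1
      · exact (hF2 i n hlt).2.1 (hF1 i).2.1
    have hfy : f y = f x := lim f hfc ⟨0, fun n _ => (hF1 n).2.2.2.1⟩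
    have hGy : G y = G x := by
      have h1 : MapClusterPt (G y - G x) atTop (fun n => g n y - g n x) := by
        have hc : Continuous (fun h : X → ℝ => h y - h x) := by fun_prop
        exact hG.continuousAt_comp (f := fun h : X → ℝ => h y - h x) hc.continuousAt
      have h2 : (fun n => g n y - g n x) = fun _ => (0 : ℝ) := by
        funext n; rw [hgi n]; ring
      rw [h2] at h1
      have h3 : G y - G x = 0 :=
        eq_of_nhds_neBot
          (h1.clusterPt.mono (tendsto_const_nhds (x := (0 : ℝ)) (f := atTop (α := ℕ))))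
      linarith
    have hGf : G y = f y := by
      have h1 : MapClusterPt (G y - f y) atTop (fun n => G (s n) - f (s n)) := by
        have hc : Continuous (fun x => G x - f x) := hGc.sub hfc
        exact hy.continuousAt_comp (f := fun x => G x - f x) hc.continuousAt
      have h2 : (fun n => G (s n) - f (s n)) = fun _ => (0 : ℝ) := by
        funext n; rw [hGs n _ (hs1 n)]; ring
      rw [h2] at h1
      have h3 : G y - f y = 0 :=
        eq_of_nhds_neBot
          (h1.clusterPt.mono (tendsto_const_nhds (x := (0 : ℝ)) (f := atTop (α := ℕ))))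
      linarith
    rw [← hGy, hGf, hfy]
  exact hGc.ext_on hS hfc key

/-- Grothendieck, Pryce, Asanov–Velichko: a space with a dense subset all of whose
sequences cluster in the space is a Grothendieck space. -/
theorem isGrothendieck_of_dense (hS : Dense S)
    (hcc : ∀ x : ℕ → X, (∀ n, x n ∈ S) → ∃ y, MapClusterPt y atTop x) : IsGrothendieck X := by
  intro B A hA
  -- the inclusion of `B` into the product
  set ι : B → (X → ℝ) := fun b => b.1.1 with hι
  have hιe : IsEmbedding ι :=
    (Topology.IsEmbedding.subtypeVal (p := Continuous)).comp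
      (Topology.IsEmbedding.subtypeVal (p := (· ∈ B)))
  set A' : Set (X → ℝ) := ι '' A with hA'
  have hAc : ∀ g ∈ A', Continuous g := by
    rintro _ ⟨a, -, rfl⟩
    exact a.1.2
  have hcl : ∀ f : ℕ → X → ℝ, (∀ n, f n ∈ A') → ∃ b : B, MapClusterPt (ι b) atTop f := by
    intro f hf
    choose a ha1 ha2 using hf
    obtain ⟨b, hb⟩ := exists_mapClusterPt hA a ha1
    refine ⟨b, ?_⟩
    have : f = ι ∘ a := by funext n; exact (ha2 n).symm
    rw [this]
    exact hb.continuousAt_comp hιe.continuous.continuousAt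
  have hclos : closure A' ⊆ range ι := by
    intro f hf
    have hfc : Continuous f := closure_continuous hS hcc hAc
      (fun g hg => by
        obtain ⟨b, hb⟩ := hcl g hg
        exact ⟨ι b, b.1.2, hb⟩) hf
    obtain ⟨g, hgA, hg⟩ := exists_seq_unique hS hcc hAc hf hfc
    obtain ⟨b, hb⟩ := hcl g hgA
    exact ⟨b, hg _ b.1.2 hb⟩
  have hbdd : ∀ x : X, ∃ M : ℝ, ∀ g ∈ A', |g x| ≤ M := by
    intro x
    by_contra hcon
    push Not at hcon
    choose g hgA hg using fun n : ℕ => hcon n
    obtain ⟨b, hb⟩ := hcl g hgA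
    have h1 : MapClusterPt (|ι b x|) atTop (fun n => |g n x|) := by
      have hc : Continuous (fun h : X → ℝ => |h x|) := by fun_prop
      exact hb.continuousAt_comp (f := fun h : X → ℝ => |h x|) hc.continuousAt
    have h2 : Tendsto (fun n => |g n x|) atTop atTop :=
      tendsto_atTop_mono (fun n => (hg n).le) tendsto_natCast_atTop_atTop
    have h3 : ∀ᶠ z in 𝓝 (|ι b x|), z < |ι b x| + 1 := Iio_mem_nhds (by linarith)
    obtain ⟨n, hn1, hn2⟩ := ((h1.frequently h3).and_eventually
      (h2.eventually_ge_atTop (|ι b x| + 1))).exists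
    linarith
  have hcomp : IsCompact (closure A') := by
    choose M hM using hbdd
    have : closure A' ⊆ Set.pi univ (fun x => Icc (-(M x)) (M x)) := by
      apply closure_minimal
      · intro g hg x _
        exact abs_le.mp (hM x g hg)
      · exact isClosed_set_pi (fun _ _ => isClosed_Icc)
    exact (isCompact_univ_pi (fun x => isCompact_Icc)).of_isClosed_subset isClosed_closure this
  have himg : ι '' closure A = closure A' := by
    apply Subset.antisymm
    · exact image_closure_subset_closure_image hιe.continuous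
    · intro f hf
      obtain ⟨b, rfl⟩ := hclos hf
      refine ⟨b, ?_, rfl⟩
      rw [hιe.closure_eq_preimage_closure_image]
      exact hf
  rw [hιe.isCompact_iff, himg]
  exact hcomp

end ThmA



/-- A fixed free ultrafilter on ℕ. -/
noncomputable def vv : Ultrafilter ℕ := Filter.hyperfilter ℕ

/-- The Fubini square of `vv`. -/
noncomputable def ww : Ultrafilter (ℕ × ℕ) :=
  vv.bind (fun n => vv.map (fun m => (n, m)))

lemma finite_notMem_vv {s : Set ℕ} (hs : s.Finite) : s ∉ vv :=
  Filter.notMem_hyperfilter_of_finite hs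

lemma cofinite_mem_vv {s : Set ℕ} (hs : s.Finite) : sᶜ ∈ vv :=
  Filter.compl_mem_hyperfilter_of_finite hs

lemma mem_ww {E : Set (ℕ × ℕ)} : E ∈ ww ↔ {n | {m | (n, m) ∈ E} ∈ vv} ∈ vv := by
  rfl

lemma map_fst_ww : ww.map Prod.fst = vv := by
  apply Ultrafilter.coe_injective
  ext S
  show Prod.fst ⁻¹' S ∈ ww ↔ S ∈ vv
  rw [mem_ww]
  have : {n | {m | (n, m) ∈ (Prod.fst ⁻¹' S : Set (ℕ × ℕ))} ∈ vv} = S := by
    ext n
    by_cases hn : n ∈ S
    · simp only [mem_preimage, hn, Set.ofPred_true, Set.mem_ofPred_eq, iff_true]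
      exact Filter.univ_mem
    · simp [hn]
  rw [this]

theorem map_ne (D : Type*) (s : ℕ → D) (t : ℕ × ℕ → D) (hs : Function.Injective s)
    (ht : Function.Injective t) : vv.map s ≠ ww.map t := by
  classical
  intro h
  set q : D → ℕ := fun d => (Function.invFun t d).1 with hq
  set q' : D → ℕ := Function.invFun s with hq'
  have hqt : q ∘ t = Prod.fst := by
    funext x
    simp [hq, Function.leftInverse_invFun ht x]
  have hqs : q' ∘ s = id := by
    funext x
    simp [hq', Function.leftInverse_invFun hs x]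
  have h1 : vv.map (q ∘ s) = vv := by
    rw [← Ultrafilter.map_map, h, Ultrafilter.map_map, hqt, map_fst_ww]
  -- the map `p = q ∘ s` is regressive on a large set
  have h2 : {k | (q ∘ s) k < k} ∈ vv := by
    have h3 : {d | q d < q' d} ∈ ww.map t := by
      show t ⁻¹' {d | q d < q' d} ∈ ww
      have hr : range s ∈ ww.map t := by
        rw [← h]
        show s ⁻¹' (range s) ∈ vv
        rw [preimage_range]
        exact Filter.univ_mem
      have hr' : t ⁻¹' (range s) ∈ ww := hr
      rw [mem_ww] at hr' ⊢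
      filter_upwards [hr'] with n hn
      have hfin : {m | t (n, m) ∈ range s ∧ q' (t (n, m)) ≤ n}.Finite := by
        apply Set.Finite.subset (s := (fun m => t (n, m)) ⁻¹' (s '' {k | k ≤ n}))
        · apply Set.Finite.preimage
          · intro a _ b _ hab
            have := ht hab
            simpa using this
          · exact (Set.finite_le_nat n).image s
        · rintro m ⟨⟨k, hk⟩, hm⟩
          refine ⟨k, ?_, hk⟩
          have : q' (t (n, m)) = k := by
            rw [← hk]; exact congrFun hqs k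
          simpa [this] using hm
      have := Filter.inter_mem hn (cofinite_mem_vv hfin)
      filter_upwards [this] with m hm
      rcases hm with ⟨hm1, hm2⟩
      have hm1' : t (n, m) ∈ range s := hm1
      have hm3 : ¬ (q' (t (n, m)) ≤ n) := fun hle => hm2 ⟨hm1', hle⟩
      show q (t (n, m)) < q' (t (n, m))
      have : q (t (n, m)) = n := congrFun hqt (n, m)
      rw [this]
      exact not_le.mp hm3
    rw [← h] at h3
    have h4 : s ⁻¹' {d | q d < q' d} ∈ vv := h3
    filter_upwards [h4] with k hk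
    have hk' : q (s k) < q' (s k) := hk
    have : q' (s k) = k := congrFun hqs k
    rw [this] at hk'
    exact hk'
  -- two-colouring
  set p : ℕ → ℕ := q ∘ s with hp
  obtain ⟨c, hc⟩ : ∃ c : ℕ → Bool, ∀ k, p k < k → c k = !(c (p k)) := by
    let F : (k : ℕ) → ((j : ℕ) → j < k → Bool) → Bool := fun k ih =>
      if hk : p k < k then !(ih (p k) hk) else true
    refine ⟨fun k => Nat.strongRec F k, fun k hk => ?_⟩
    show Nat.strongRec F k = !(Nat.strongRec F (p k))
    rw [Nat.strongRec_eq]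
    simp [F, hk]
  have h5 : ∀ b : Bool, {k | c k = b} ∈ vv → False := by
    intro b hb
    have hb' : {k | c k = b} ∈ vv.map p := by rw [h1]; exact hb
    have hb'' : p ⁻¹' {k | c k = b} ∈ vv := hb'
    have := Filter.inter_mem (Filter.inter_mem hb hb'') h2
    obtain ⟨k, ⟨hk1, hk2⟩, hk3⟩ := (Ultrafilter.nonempty_of_mem this)
    have e1 : c k = b := hk1
    have e2 : c (p k) = b := hk2
    have e3 := hc k hk3
    rw [e1, e2] at e3
    cases b <;> simp at e3
  rcases (Ultrafilter.mem_or_compl_mem vv {k | c k = true}) with h6 | h6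
  · exact h5 true h6
  · apply h5 false
    convert h6 using 1
    ext k
    simp

section Construction

variable {D : Type*}

/-- The index set: countable subsets of `D`. -/
abbrev Ctb (D : Type*) := {C : Set D // C.Countable}

/-- The trace of an ultrafilter on the countable sets -/
noncomputable def lim (u : Ultrafilter D) : Ctb D → Bool := by
  classical exact fun C => decide (C.1 ∈ u)

lemma lim_eq_true {u : Ultrafilter D} {C : Ctb D} : lim u C = true ↔ C.1 ∈ u := by
  classical simp [lim]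

lemma lim_eq_false {u : Ultrafilter D} {C : Ctb D} : lim u C = false ↔ C.1 ∉ u := by
  classical simp [lim]

/-- The point corresponding to an element of `D`. -/
noncomputable def pt (d : D) : Ctb D → Bool := lim (pure d : Ultrafilter D)

lemma pt_eq_true {d : D} {C : Ctb D} : pt d C = true ↔ d ∈ C.1 := by
  rw [pt, lim_eq_true, Ultrafilter.mem_pure]

lemma pt_eq_false {d : D} {C : Ctb D} : pt d C = false ↔ d ∉ C.1 := by
  rw [pt, lim_eq_false, Ultrafilter.mem_pure]

/-- The point at infinity. -/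
def infty (D : Type*) : Ctb D → Bool := fun _ => false

lemma tendsto_pt (u : Ultrafilter D) : Tendsto pt (u : Filter D) (𝓝 (lim u)) := by
  rw [tendsto_pi_nhds]
  intro C
  by_cases h : C.1 ∈ u
  · rw [(lim_eq_true).mpr h]
    refine tendsto_const_nhds.congr' ?_
    filter_upwards [h] with d hd
    exact (pt_eq_true.mpr hd).symm
  · rw [(lim_eq_false).mpr h]
    refine tendsto_const_nhds.congr' ?_
    have h' := Ultrafilter.compl_mem_iff_notMem.mpr h
    filter_upwards [h'] with d hd
    exact (pt_eq_false.mpr hd).symm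

lemma tendsto_pt_infty : Tendsto (pt (D := D)) cocountable (𝓝 (infty D)) := by
  rw [tendsto_pi_nhds]
  intro C
  refine tendsto_const_nhds.congr' ?_
  have : C.1ᶜ ∈ (cocountable : Filter D) := by
    rw [mem_cocountable, compl_compl]; exact C.2
  filter_upwards [this] with d hd
  exact (pt_eq_false.mpr hd).symm

lemma lim_inj {u u' : Ultrafilter D} {C : Set D} (hC : C.Countable) (hCu : C ∈ u)
    (h : lim u = lim u') : u = u' := by
  have hCu' : C ∈ u' := by
    have := congrFun h ⟨C, hC⟩
    rw [lim_eq_true.mpr hCu] at this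
    exact lim_eq_true.mp this.symm
  apply Ultrafilter.coe_injective
  ext E
  show E ∈ u ↔ E ∈ u'
  have hcnt : (E ∩ C).Countable := hC.mono inter_subset_right
  have h1 : E ∈ u ↔ E ∩ C ∈ u := ⟨fun h => Filter.inter_mem h hCu,
    fun h => Filter.mem_of_superset h inter_subset_left⟩
  have h2 : E ∈ u' ↔ E ∩ C ∈ u' := ⟨fun h => Filter.inter_mem h hCu',
    fun h => Filter.mem_of_superset h inter_subset_left⟩
  rw [h1, h2, ← lim_eq_true (C := ⟨E ∩ C, hcnt⟩), ← lim_eq_true (C := ⟨E ∩ C, hcnt⟩), h]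

lemma pt_inj : Function.Injective (pt (D := D)) := by
  intro d d' h
  have := congrFun h ⟨{d}, countable_singleton d⟩
  rw [(pt_eq_true (C := ⟨{d}, countable_singleton d⟩)).mpr rfl] at this
  have h2 := pt_eq_true.mp this.symm
  exact (mem_singleton_iff.mp h2).symm

/-- The point set of the space attached to a set `𝒰` of ultrafilters. -/
def pts (𝒰 : Set (Ultrafilter D)) : Set (Ctb D → Bool) :=
  range pt ∪ {infty D} ∪ lim '' 𝒰

lemma pt_mem (𝒰 : Set (Ultrafilter D)) (d : D) : pt d ∈ pts 𝒰 := Or.inl (Or.inl ⟨d, rfl⟩)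

lemma infty_mem (𝒰 : Set (Ultrafilter D)) : infty D ∈ pts 𝒰 := Or.inl (Or.inr rfl)

lemma eq_pt_of_mem {𝒰 : Set (Ultrafilter D)} (h𝒰 : ∀ u ∈ 𝒰, ∀ d, {d} ∉ u) {z : Ctb D → Bool}
    (hz : z ∈ pts 𝒰) {d : D} (hd : z ⟨{d}, countable_singleton d⟩ = true) : z = pt d := by
  rcases hz with (⟨d', rfl⟩ | hz) | ⟨u, hu, rfl⟩
  · have := pt_eq_true.mp hd
    rw [mem_singleton_iff.mp this]
  · rw [mem_singleton_iff.mp hz] at hd
    exact absurd hd (by simp [infty])
  · exact absurd (lim_eq_true.mp hd) (h𝒰 u hu d)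

theorem isGrothendieck_pts [Uncountable D] {𝒰 : Set (Ultrafilter D)}
    (h𝒰 : ∀ s : ℕ → D, Function.Injective s → ∃ u ∈ 𝒰, range s ∈ u ∧ ∀ d, {d} ∉ u) :
    IsGrothendieck (pts 𝒰) := by
  set e : D → pts 𝒰 := fun d => ⟨pt d, pt_mem 𝒰 d⟩ with he
  have hlim : ∀ (F : Filter D) (z : pts 𝒰), Tendsto pt F (𝓝 z.1) → Tendsto e F (𝓝 z) := by
    intro F z h
    rw [tendsto_subtype_rng]
    exact h
  have heinj : Function.Injective e := fun d d' h => pt_inj (congrArg Subtype.val h)
  have hdense : Dense (range e) := by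
    intro z
    have hNB : (cocountable : Filter D).NeBot := by
      rw [neBot_iff]
      intro h
      have : (∅ : Set D) ∈ (cocountable : Filter D) := by rw [h]; trivial
      rw [mem_cocountable, compl_empty] at this
      exact Set.not_countable_univ this
    rcases z with ⟨z, (⟨d, rfl⟩ | hz) | ⟨u, hu, rfl⟩⟩
    · exact subset_closure ⟨d, rfl⟩
    · have hz' : z = infty D := hz
      subst hz'
      exact mem_closure_of_tendsto (hlim cocountable ⟨infty D, _⟩ tendsto_pt_infty)
        (Eventually.of_forall fun d => ⟨d, rfl⟩)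
    · exact mem_closure_of_tendsto (hlim u ⟨lim u, _⟩ (tendsto_pt u))
        (Eventually.of_forall fun d => ⟨d, rfl⟩)
  apply isGrothendieck_of_dense hdense
  intro x hx
  apply exists_mapClusterPt (A := range e) _ x hx
  intro T hT hTinf
  have hpre : (e ⁻¹' T).Infinite := hTinf.preimage hT
  set j := hpre.natEmbedding with hj
  set s : ℕ → D := fun n => (j n).1 with hs
  have hsinj : Function.Injective s := fun m n h => j.injective (Subtype.ext h)
  obtain ⟨u, hu, hru, hfree⟩ := h𝒰 s hsinj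
  refine ⟨⟨lim u, Or.inr ⟨u, hu, rfl⟩⟩, ?_⟩
  rw [accPt_iff_nhds]
  intro U hU
  have h1 := (hlim u ⟨lim u, Or.inr ⟨u, hu, rfl⟩⟩ (tendsto_pt u)) hU
  have h2 : {d | e d ≠ ⟨lim u, Or.inr ⟨u, hu, rfl⟩⟩} ∈ u := by
    by_contra hcon
    rw [← Ultrafilter.compl_mem_iff_notMem] at hcon
    obtain ⟨d, hd⟩ := Ultrafilter.nonempty_of_mem hcon
    have hd' : e d = ⟨lim u, Or.inr ⟨u, hu, rfl⟩⟩ := by simpa using hd
    apply hfree d
    refine Filter.mem_of_superset hcon ?_
    intro d' hd2
    have hd2' : e d' = ⟨lim u, Or.inr ⟨u, hu, rfl⟩⟩ := by simpa using hd2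
    exact heinj (hd2'.trans hd'.symm)
  obtain ⟨d, ⟨⟨hd1, hd2⟩, hd3⟩⟩ := Ultrafilter.nonempty_of_mem
    (Filter.inter_mem (Filter.inter_mem h1 hru) h2)
  obtain ⟨n, rfl⟩ := hd2
  exact ⟨e (s n), ⟨hd1, (j n).2⟩, hd3⟩

/-! ### The product -/

variable {𝒰 𝒱 : Set (Ultrafilter D)}

/-- The diagonal part over a countable set. -/
def diag (𝒰 𝒱 : Set (Ultrafilter D)) (C : Ctb D) : Set (pts 𝒰 × pts 𝒱) :=
  {p | p.1.1 = p.2.1 ∧ p.1.1 C = true}

/-- the pair of points (d,d) -/
noncomputable def dpt (𝒰 𝒱 : Set (Ultrafilter D)) (d : D) : pts 𝒰 × pts 𝒱 :=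
  (⟨pt d, pt_mem 𝒰 d⟩, ⟨pt d, pt_mem 𝒱 d⟩)

lemma dpt_mem_diag {d : D} {C : Ctb D} : dpt 𝒰 𝒱 d ∈ diag 𝒰 𝒱 C ↔ d ∈ C.1 := by
  show (pt d = pt d ∧ pt d C = true) ↔ _
  rw [pt_eq_true]
  simp

/-- the hypothesis that the two families are disjoint -/
def Good (𝒰 𝒱 : Set (Ultrafilter D)) : Prop :=
  (∀ u ∈ 𝒰, ∀ d, {d} ∉ u) ∧ (∀ u ∈ 𝒱, ∀ d, {d} ∉ u) ∧ (∀ u ∈ 𝒰, ∃ C : Set D, C.Countable ∧ C ∈ u) ∧
    Disjoint 𝒰 𝒱

lemma Good.mem_inter (hG : Good 𝒰 𝒱) {z : Ctb D → Bool} (h1 : z ∈ pts 𝒰) (h2 : z ∈ pts 𝒱) :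
    (∃ d, z = pt d) ∨ z = infty D := by
  rcases h1 with (⟨d, rfl⟩ | h1) | ⟨u, hu, rfl⟩
  · exact Or.inl ⟨d, rfl⟩
  · exact Or.inr h1
  · rcases h2 with (⟨d, hd⟩ | h2) | ⟨v, hv, hvu⟩
    · exact Or.inl ⟨d, hd.symm⟩
    · exact Or.inr h2
    · obtain ⟨C, hC, hCu⟩ := hG.2.2.1 u hu
      have := lim_inj hC hCu hvu.symm
      subst this
      exact absurd hv (Set.disjoint_left.mp hG.2.2.2 hu)

lemma Good.cases (hG : Good 𝒰 𝒱) (p : pts 𝒰 × pts 𝒱) :
    (∃ d, p = dpt 𝒰 𝒱 d) ∨ ∀ C, p ∉ diag 𝒰 𝒱 C := by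
  by_cases h : p.1.1 = p.2.1
  · rcases hG.mem_inter p.1.2 (h ▸ p.2.2) with ⟨d, hd⟩ | hd
    · left
      refine ⟨d, ?_⟩
      apply Prod.ext
      · exact Subtype.ext hd
      · exact Subtype.ext (h.symm.trans hd)
    · right
      rintro C ⟨-, hC⟩
      rw [hd] at hC
      simp [infty] at hC
  · right
    rintro C ⟨h', -⟩
    exact h h'

lemma Good.isClopen_diag (hG : Good 𝒰 𝒱) (C : Ctb D) : IsClopen (diag 𝒰 𝒱 C) := by
  constructor
  · apply IsClosed.inter
    · exact isClosed_eq (by fun_prop) (by fun_prop)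
    · have : Continuous (fun p : pts 𝒰 × pts 𝒱 => p.1.1 C) :=
        (continuous_apply C).comp (continuous_subtype_val.comp continuous_fst)
      exact (isClosed_discrete {true}).preimage this
  · rw [isOpen_iff_mem_nhds]
    intro p hp
    rcases hG.cases p with ⟨d, rfl⟩ | h
    · have hdC := dpt_mem_diag.mp hp
      set Cd : Ctb D := ⟨{d}, countable_singleton d⟩ with hCd
      have ho1 : IsOpen {p : pts 𝒰 × pts 𝒱 | p.1.1 Cd = true} := by
        have : Continuous (fun p : pts 𝒰 × pts 𝒱 => p.1.1 Cd) :=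
          (continuous_apply Cd).comp (continuous_subtype_val.comp continuous_fst)
        exact (isOpen_discrete {true}).preimage this
      have ho2 : IsOpen {p : pts 𝒰 × pts 𝒱 | p.2.1 Cd = true} := by
        have : Continuous (fun p : pts 𝒰 × pts 𝒱 => p.2.1 Cd) :=
          (continuous_apply Cd).comp (continuous_subtype_val.comp continuous_snd)
        exact (isOpen_discrete {true}).preimage this
      have hm : dpt 𝒰 𝒱 d ∈ {p : pts 𝒰 × pts 𝒱 | p.1.1 Cd = true} ∩
          {p : pts 𝒰 × pts 𝒱 | p.2.1 Cd = true} := by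
        constructor
        · show pt d Cd = true
          rw [pt_eq_true]; rfl
        · show pt d Cd = true
          rw [pt_eq_true]; rfl
      refine Filter.mem_of_superset ((ho1.inter ho2).mem_nhds hm) ?_
      rintro p ⟨hp1, hp2⟩
      have e1 := eq_pt_of_mem hG.1 p.1.2 hp1
      have e2 := eq_pt_of_mem hG.2.1 p.2.2 hp2
      refine ⟨e1.trans e2.symm, ?_⟩
      rw [e1, pt_eq_true]
      exact hdC
    · exact absurd hp (h C)

theorem not_weaklyGrothendieck [Uncountable D] (hG : Good 𝒰 𝒱) :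
    ¬ IsWeaklyGrothendieck (pts 𝒰 × pts 𝒱) := by
  classical
  intro hW
  -- the characteristic functions
  set F : Ctb D → Cp (pts 𝒰 × pts 𝒱) := fun C =>
    ⟨Set.indicator (diag 𝒰 𝒱 C) 1, by
      have := (LocallyConstant.charFn ℝ (hG.isClopen_diag C)).continuous
      rwa [LocallyConstant.coe_charFn] at this⟩ with hF
  have hFval : ∀ C p, (F C).1 p = if p ∈ diag 𝒰 𝒱 C then 1 else 0 := by
    intro C p
    show Set.indicator (diag 𝒰 𝒱 C) 1 p = _
    simp [Set.indicator_apply]
  have hFpt : ∀ C d, (F C).1 (dpt 𝒰 𝒱 d) = if d ∈ C.1 then 1 else 0 := by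
    intro C d
    rw [hFval]
    simp only [dpt_mem_diag]
  have hFno : ∀ p, (∀ C, p ∉ diag 𝒰 𝒱 C) → ∀ C, (F C).1 p = 0 := by
    intro p hp C
    rw [hFval, if_neg (hp C)]
  have hcc : CountablyCompactIn (range F) := by
    intro T hT hTinf
    set j := hTinf.natEmbedding with hj
    have : ∀ n, ∃ C, F C = (j n).1 := fun n => hT (j n).2
    choose C hC using this
    set Cs : Set D := {d | {n | d ∈ (C n).1} ∈ vv} with hCs
    have hcnt : Cs.Countable := by
      apply (Set.countable_iUnion (fun n => (C n).2)).mono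
      intro d hd
      obtain ⟨n, hn⟩ := Ultrafilter.nonempty_of_mem hd
      exact Set.mem_iUnion.mpr ⟨n, hn⟩
    have hlim : Tendsto (fun n => (j n).1) (vv : Filter ℕ) (𝓝 (F ⟨Cs, hcnt⟩)) := by
      rw [tendsto_subtype_rng, tendsto_pi_nhds]
      intro p
      refine tendsto_const_nhds.congr' ?_
      rcases hG.cases p with ⟨d, rfl⟩ | h
      · by_cases hd : d ∈ Cs
        · have hd' : {n | d ∈ (C n).1} ∈ vv := hd
          filter_upwards [hd'] with n hn
          rw [← hC n, hFpt, hFpt, if_pos hd, if_pos hn]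
        · have hd' : {n | d ∈ (C n).1}ᶜ ∈ vv := Ultrafilter.compl_mem_iff_notMem.mpr hd
          filter_upwards [hd'] with n hn
          have hn' : d ∉ (C n).1 := hn
          rw [← hC n, hFpt, hFpt, if_neg hd, if_neg hn']
      · filter_upwards with n
        rw [← hC n, hFno p h, hFno p h]
    refine ⟨F ⟨Cs, hcnt⟩, ?_⟩
    rw [accPt_iff_nhds]
    intro U hU
    have h1 := hlim hU
    have h2 : {n | (j n).1 ≠ F ⟨Cs, hcnt⟩} ∈ vv := by
      by_contra hcon
      rw [← Ultrafilter.compl_mem_iff_notMem] at hcon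
      refine finite_notMem_vv (Set.Subsingleton.finite ?_) hcon
      intro m hm n hn
      have hm' : (j m).1 = F ⟨Cs, hcnt⟩ := by simpa using hm
      have hn' : (j n).1 = F ⟨Cs, hcnt⟩ := by simpa using hn
      exact j.injective (Subtype.ext (hm'.trans hn'.symm))
    obtain ⟨n, hn1, hn2⟩ := Ultrafilter.nonempty_of_mem (Filter.inter_mem h1 h2)
    exact ⟨(j n).1, ⟨hn1, (j n).2⟩, hn2⟩
  have hK := hW _ hcc
  -- the limit function
  set G : pts 𝒰 × pts 𝒱 → ℝ := fun p => if ∃ d, p = dpt 𝒰 𝒱 d then 1 else 0 with hGdef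
  have hval : Continuous (Subtype.val : Cp (pts 𝒰 × pts 𝒱) → _) := continuous_subtype_val
  have hclosed : IsClosed (Subtype.val '' closure (range F)) := (hK.image hval).isClosed
  have hGcl : G ∈ closure (Subtype.val '' closure (range F)) := by
    have ht : Tendsto (fun s : Finset D => (F ⟨(s : Set D), s.countable_toSet⟩).1) atTop (𝓝 G) := by
      rw [tendsto_pi_nhds]
      intro p
      refine tendsto_const_nhds.congr' ?_
      rcases hG.cases p with ⟨d, rfl⟩ | h
      · filter_upwards [eventually_ge_atTop {d}] with s hs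
        rw [hFpt]
        have : d ∈ (s : Set D) := hs (Finset.mem_singleton_self d)
        rw [if_pos this]
        simp [hGdef]
      · filter_upwards with s
        rw [hFno p h]
        have : ¬ ∃ d, p = dpt 𝒰 𝒱 d := by
          rintro ⟨d, rfl⟩
          exact h ⟨{d}, countable_singleton d⟩ (dpt_mem_diag.mpr rfl)
        simp only [hGdef, if_neg this]
    exact mem_closure_of_tendsto ht (Eventually.of_forall fun s =>
      ⟨_, subset_closure ⟨_, rfl⟩, rfl⟩)
  rw [hclosed.closure_eq] at hGcl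
  obtain ⟨g, -, hg⟩ := hGcl
  have hGc : Continuous G := hg ▸ g.2
  have hNB : (cocountable : Filter D).NeBot := by
    rw [neBot_iff]
    intro h
    have : (∅ : Set D) ∈ (cocountable : Filter D) := by rw [h]; trivial
    rw [mem_cocountable, compl_empty] at this
    exact Set.not_countable_univ this
  set pinf : pts 𝒰 × pts 𝒱 := (⟨infty D, infty_mem 𝒰⟩, ⟨infty D, infty_mem 𝒱⟩) with hpinf
  have htd : Tendsto (dpt 𝒰 𝒱) cocountable (𝓝 pinf) := by
    rw [hpinf, nhds_prod_eq]
    apply Tendsto.prodMk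
    · rw [tendsto_subtype_rng]
      exact tendsto_pt_infty
    · rw [tendsto_subtype_rng]
      exact tendsto_pt_infty
  have h1 : Tendsto (fun d => G (dpt 𝒰 𝒱 d)) cocountable (𝓝 (G pinf)) :=
    (hGc.tendsto pinf).comp htd
  have h2 : (fun d => G (dpt 𝒰 𝒱 d)) = fun _ => (1 : ℝ) := by
    funext d
    simp [hGdef]
  have h3 : G pinf = 0 := by
    have : ¬ ∃ d, pinf = dpt 𝒰 𝒱 d := by
      rintro ⟨d, hd⟩
      have hd' : infty D = pt d := congrArg (fun p => p.1.1) hd
      have := congrFun hd' ⟨{d}, countable_singleton d⟩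
      rw [(pt_eq_true (C := ⟨{d}, countable_singleton d⟩)).mpr rfl] at this
      simp [infty] at this
    simp only [hGdef, if_neg this]
  rw [h2, h3] at h1
  have := tendsto_nhds_unique h1 tendsto_const_nhds
  norm_num at this

end Construction

/-- There are Tychonoff spaces `X` and `Y`, both Grothendieck, such that `X × Y` is not weakly
Grothendieck. -/
theorem result : ∃ (X Y : Type) (_ : TopologicalSpace X) (_ : TopologicalSpace Y),
    T35Space X ∧ T35Space Y ∧ IsGrothendieck X ∧ IsGrothendieck Y ∧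
      ¬ IsWeaklyGrothendieck (X × Y) := by
  set 𝒰 : Set (Ultrafilter ℝ) := {u | ∃ s : ℕ → ℝ, Function.Injective s ∧ u = vv.map s} with h𝒰
  set 𝒱 : Set (Ultrafilter ℝ) := {u | ∃ t : ℕ × ℕ → ℝ, Function.Injective t ∧ u = ww.map t} with h𝒱
  have hfree1 : ∀ s : ℕ → ℝ, Function.Injective s → ∀ d, {d} ∉ vv.map s := by
    intro s hs d hd
    have : s ⁻¹' {d} ∈ vv := hd
    exact finite_notMem_vv ((Set.finite_singleton d).preimage hs.injOn) this
  have hfree2 : ∀ t : ℕ × ℕ → ℝ, Function.Injective t → ∀ d, {d} ∉ ww.map t := by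
    intro t ht d hd
    have h1 : t ⁻¹' {d} ∈ ww := hd
    rw [mem_ww] at h1
    obtain ⟨n, hn⟩ := Ultrafilter.nonempty_of_mem h1
    refine finite_notMem_vv ?_ hn
    apply Set.Subsingleton.finite
    intro a ha b hb
    have ha' : t (n, a) = d := ha
    have hb' : t (n, b) = d := hb
    have := ht (ha'.trans hb'.symm)
    simpa using this
  refine ⟨pts 𝒰, pts 𝒱, inferInstance, inferInstance, inferInstance, inferInstance, ?_, ?_, ?_⟩
  · apply isGrothendieck_pts
    intro s hs
    refine ⟨vv.map s, ⟨s, hs, rfl⟩, ?_, hfree1 s hs⟩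
    show s ⁻¹' (range s) ∈ vv
    rw [preimage_range]
    exact Filter.univ_mem
  · apply isGrothendieck_pts
    intro s hs
    have ht : Function.Injective (s ∘ Nat.pairEquiv) := hs.comp Nat.pairEquiv.injective
    refine ⟨ww.map (s ∘ Nat.pairEquiv), ⟨_, ht, rfl⟩, ?_, hfree2 _ ht⟩
    show (s ∘ Nat.pairEquiv) ⁻¹' (range s) ∈ ww
    have : (s ∘ Nat.pairEquiv) ⁻¹' (range s) = univ := by
      ext p; simp
    rw [this]
    exact Filter.univ_mem
  · apply not_weaklyGrothendieck
    refine ⟨?_, ?_, ?_, ?_⟩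
    · rintro _ ⟨s, hs, rfl⟩
      exact hfree1 s hs
    · rintro _ ⟨t, ht, rfl⟩
      exact hfree2 t ht
    · rintro _ ⟨s, hs, rfl⟩
      refine ⟨range s, countable_range s, ?_⟩
      show s ⁻¹' (range s) ∈ vv
      rw [preimage_range]
      exact Filter.univ_mem
    · rw [Set.disjoint_left]
      rintro _ ⟨s, hs, rfl⟩ ⟨t, ht, h⟩
      exact map_ne ℝ s t hs ht h


end Pool.H64.PNG
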